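import Pool.Agent.J4H34.DN.Stm

/-! Project DN: the piece C. -/

set_option autoImplicit false

namespace Pool.Agent.J4H36.DN

open Polynomial Complex Pool.Agent.J4H34.DN

lemma iter_der (Q : ℂ[X]) (c : ℂ) (m : ℕ) :
    derivative^[m + 1] ((X - C c) * Q) =
      (X - C c) * derivative^[m + 1] Q + ((m : ℂ[X]) + 1) * derivative^[m] Q := by
  induction m with
  | zero =>
    simp only [zero_add, Function.iterate_one, Function.iterate_zero, id_eq, Nat.cast_zero]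
    rw [derivative_mul, derivative_sub, derivative_X, derivative_C]
    ring
  | succ m ih =>
    rw [Function.iterate_succ_apply', ih, derivative_add, derivative_mul, derivative_mul,
      derivative_sub, derivative_X, derivative_C, derivative_add, derivative_natCast,
      derivative_one, ← Function.iterate_succ_apply' derivative (m + 1) Q,
      ← Function.iterate_succ_apply' derivative m Q]
    push_cast
    ring

/-- The analytic part. -/
lemma one_root (z₀ ζ κ : ℂ) (y R : ℝ) (hR : 0 < R) (hy : y < ζ.im) (hζ : ζ.im + R ≤ z₀.im)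
    (hκ : 0 ≤ κ.im) (hκR : ‖κ‖ ≤ R / 4) :
    z₀ - ζ + κ ≠ 0 ∧ ‖z₀ - refl y ζ + κ‖ ≤
      Real.exp (5 * ((ζ.im - y) * (z₀.im - y) / ‖z₀ - ζ‖ ^ 2)) * ‖z₀ - ζ + κ‖ := by
  have him : (z₀ - ζ + κ).im = z₀.im - ζ.im + κ.im := by simp
  have hne : z₀ - ζ + κ ≠ 0 := by
    intro h
    rw [h, Complex.zero_im] at him
    linarith
  refine ⟨hne, ?_⟩
  have hu : R ≤ ‖z₀ - ζ‖ := by
    have h1 := Complex.abs_im_le_norm (z₀ - ζ)
    have h2 : (z₀ - ζ).im = z₀.im - ζ.im := by simp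
    rw [h2] at h1
    have h3 := le_abs_self (z₀.im - ζ.im)
    linarith
  have hκi : κ.im ≤ R / 4 := ((le_abs_self _).trans (Complex.abs_im_le_norm κ)).trans hκR
  have hlow : 3 / 4 * ‖z₀ - ζ‖ ≤ ‖z₀ - ζ + κ‖ := by
    have h1 : ‖z₀ - ζ‖ ≤ ‖z₀ - ζ + κ‖ + ‖κ‖ := by
      calc ‖z₀ - ζ‖ = ‖(z₀ - ζ + κ) - κ‖ := by rw [add_sub_cancel_right]
        _ ≤ _ := norm_sub_le _ _
    linarith
  obtain ⟨U, hU⟩ : ∃ U, U = ‖z₀ - ζ‖ ^ 2 := ⟨_, rfl⟩
  obtain ⟨N, hN⟩ : ∃ N, N = ‖z₀ - ζ + κ‖ ^ 2 := ⟨_, rfl⟩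
  have hUpos : 0 < U := by
    rw [hU]
    have : 0 < ‖z₀ - ζ‖ := lt_of_lt_of_le hR hu
    positivity
  have hNU : 9 * U ≤ 16 * N := by
    rw [hU, hN]
    have h0 : 0 ≤ ‖z₀ - ζ‖ := norm_nonneg _
    nlinarith [pow_le_pow_left₀ (by positivity : 0 ≤ 3 / 4 * ‖z₀ - ζ‖) hlow 2]
  have hsq : ‖z₀ - refl y ζ + κ‖ ^ 2 = N + 4 * (ζ.im - y) * (z₀.im - y + κ.im) := by
    rw [hN, Complex.sq_norm, Complex.sq_norm, Complex.normSq_apply, Complex.normSq_apply]
    simp only [Pool.Agent.J4H34.DN.refl, Complex.add_re, Complex.add_im, Complex.sub_re, Complex.sub_im]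
    ring
  obtain ⟨t, ht⟩ : ∃ t, t = (ζ.im - y) * (z₀.im - y) / U := ⟨_, rfl⟩
  have hδ : 0 < ζ.im - y := by linarith
  have hzy : R ≤ z₀.im - y := by linarith
  have htU : t * U = (ζ.im - y) * (z₀.im - y) := by
    rw [ht]
    field_simp
  have ht0 : 0 ≤ t := by
    rw [ht]
    have : 0 ≤ z₀.im - y := by linarith
    positivity
  have hN0 : 0 ≤ N := by rw [hN]; positivity
  have hexp : 1 + 10 * t ≤ Real.exp (10 * t) := by
    have := Real.add_one_le_exp (10 * t)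
    linarith
  have hkey : ‖z₀ - refl y ζ + κ‖ ^ 2 ≤ (Real.exp (5 * t) * ‖z₀ - ζ + κ‖) ^ 2 := by
    have e : (Real.exp (5 * t) * ‖z₀ - ζ + κ‖) ^ 2 = Real.exp (10 * t) * N := by
      rw [mul_pow, ← Real.exp_nat_mul, hN]
      congr 2
      push_cast
      ring
    rw [e, hsq]
    have h1 : (ζ.im - y) * (z₀.im - y + κ.im) ≤ 5 / 4 * (t * U) := by
      rw [htU]
      nlinarith
    have h2 : t * U ≤ t * (16 / 9 * N) := mul_le_mul_of_nonneg_left (by linarith) ht0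
    have h3 : (1 + 10 * t) * N ≤ Real.exp (10 * t) * N := mul_le_mul_of_nonneg_right hexp hN0
    nlinarith [mul_nonneg ht0 hN0]
  rw [← hU, ← ht]
  exact le_of_sq_le_sq hkey (by positivity)

theorem t_C (hR : S_R) : S_C := by
  intro Q z₀ ζ y R Λ n hQ hR0 hΛ hroots hsum hn hy hζ
  obtain ⟨A, κ, hA, hκ, hκR, hall⟩ : ∃ A κ : ℂ, A ≠ 0 ∧ 0 ≤ κ.im ∧ ‖κ‖ ≤ R / 4 ∧
      ∀ c : ℂ, (derivative^[n] ((X - C c) * Q)).eval z₀ = (z₀ - c + κ) * A := by
    cases n with
    | zero =>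
      refine ⟨Q.eval z₀, 0, fun h => ?_, by simp, by simp; positivity, fun c => ?_⟩
      · have := hroots z₀ ((mem_roots hQ).2 h)
        linarith
      · simp
    | succ m =>
      push_cast at hn
      obtain ⟨h1, h2, h3⟩ := hR Q z₀ R Λ m hQ hR0 hΛ hroots hsum (by linarith)
      refine ⟨(derivative^[m + 1] Q).eval z₀, ((m : ℂ) + 1) *
        ((derivative^[m] Q).eval z₀ / (derivative^[m + 1] Q).eval z₀), h1, ?_, ?_, fun c => ?_⟩
      · have : ((m : ℂ) + 1) = (((m : ℝ) + 1 : ℝ) : ℂ) := by push_cast; rfl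
        rw [this, Complex.im_ofReal_mul]
        positivity
      · rw [norm_mul]
        have : ‖(m : ℂ) + 1‖ = (m : ℝ) + 1 := by
          have e : ((m : ℂ) + 1) = (((m + 1 : ℕ) : ℝ) : ℂ) := by push_cast; rfl
          rw [e, Complex.norm_real, Real.norm_eq_abs, abs_of_nonneg (by positivity)]
          push_cast
          rfl
        rw [this]
        calc ((m : ℝ) + 1) * _ ≤ ((m : ℝ) + 1) * (2 / Λ) :=
              mul_le_mul_of_nonneg_left h3 (by positivity)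
          _ ≤ R / 4 := by
            rw [← mul_div_assoc, div_le_iff₀ hΛ]
            linarith
      · rw [iter_der, eval_add, eval_mul, eval_mul, eval_sub, eval_X, eval_C]
        simp only [eval_add, eval_natCast, eval_one]
        field_simp
  obtain ⟨g1, g2⟩ := one_root z₀ ζ κ y R hR0 hy hζ hκ hκR
  rw [hall, hall]
  refine ⟨mul_ne_zero g1 hA, ?_⟩
  rw [norm_mul, norm_mul, ← mul_assoc]
  exact mul_le_mul_of_nonneg_right g2 (norm_nonneg _)

end Pool.Agent.J4H36.DN
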